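import Pool.Agent.W475.BG.Stm
import Pool.Agent.W64.BH.Mer
import Pool.Agent.H855R2.SF.Dir
import Pool.Agent.H471R3.GJ.PFc
import Pool.Agent.H471R3.GJ.PMel
import Pool.Agent.H471R3.GJ.PDir
import Pool.Agent.H471R3.GJ.Dch
import Pool.Agent.H471R3.GJ.DchL

/-! Subtask BG-DIR: primitive Dirichlet characters of modulus `> 1` are L-functions of degree one. -/

set_option autoImplicit false
set_option linter.unusedSectionVars false

namespace Pool.Agent.W686.BG.Dir

open Complex MeasureTheory Filter Topology Set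
open Pool.Agent.W475.BH (PP)
open Pool.Agent.W475.BG
open Pool.Agent.H471R3.GJ (dch)
open scoped ComplexConjugate

/-! ### Mellin transforms are bounded in strips -/

theorem mellin_bdd (f : ℝ → ℂ) (hf : ∀ s : ℂ, MellinConvergent f s) (K : ℝ) :
    ∃ C : ℝ, ∀ s : ℂ, |s.re| ≤ K → ‖mellin f s‖ ≤ C := by
  have h1 := hf (K : ℂ)
  have h2 := hf (-(K : ℂ))
  unfold MellinConvergent at h1 h2
  refine ⟨∫ t in Ioi (0 : ℝ), (‖(t : ℂ) ^ ((K : ℂ) - 1) • f t‖ + ‖(t : ℂ) ^ (-(K : ℂ) - 1) • f t‖),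
    fun s hs => ?_⟩
  have h3 := hf s
  unfold MellinConvergent at h3
  unfold mellin
  refine (norm_integral_le_integral_norm _).trans ?_
  refine setIntegral_mono_on h3.norm (h1.norm.add h2.norm) measurableSet_Ioi fun t ht => ?_
  have ht0 : (0 : ℝ) < t := ht
  rw [norm_smul, norm_smul, norm_smul, Complex.norm_cpow_eq_rpow_re_of_pos ht0,
    Complex.norm_cpow_eq_rpow_re_of_pos ht0, Complex.norm_cpow_eq_rpow_re_of_pos ht0, ← add_mul]
  have e1 : (s - 1).re = s.re - 1 := by simp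
  have e2 : ((K : ℂ) - 1).re = K - 1 := by simp
  have e3 : (-(K : ℂ) - 1).re = -K - 1 := by simp
  rw [e1, e2, e3]
  refine mul_le_mul_of_nonneg_right ?_ (norm_nonneg _)
  have hp1 : 0 < t ^ (K - 1) := Real.rpow_pos_of_pos ht0 _
  have hp2 : 0 < t ^ (-K - 1) := Real.rpow_pos_of_pos ht0 _
  have hs1 := (abs_le.1 hs).1
  have hs2 := (abs_le.1 hs).2
  rcases le_total 1 t with h | h
  · have := Real.rpow_le_rpow_of_exponent_le h (by linarith : s.re - 1 ≤ K - 1)
    linarith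
  · have := Real.rpow_le_rpow_of_exponent_ge ht0 h (by linarith : -K - 1 ≤ s.re - 1)
    linarith

section

variable {N : ℕ} [NeZero N] (χ : DirichletCharacter ℂ N)

/-- The completed function. -/
noncomputable def lam (s : ℂ) : ℂ := (N : ℂ) ^ (s / 2) * DirichletCharacter.completedLFunction χ s

variable {χ}

theorem norm_Npow (hN : 1 < N) (s : ℂ) : ‖(N : ℂ) ^ s‖ = (N : ℝ) ^ s.re := by
  have hN0 : (0 : ℝ) < N := by exact_mod_cast (by omega : 0 < N)
  have : ((N : ℕ) : ℂ) = ((N : ℝ) : ℂ) := by simp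
  rw [this, Complex.norm_cpow_eq_rpow_re_of_pos hN0]

theorem strip (hN : 1 < N) (hχ : χ.IsPrimitive) (K : ℝ) :
    ∃ C : ℝ, ∀ s : ℂ, |s.re| ≤ K → ‖lam χ s‖ ≤ C := by
  classical
  have hH : Pool.Agent.H471R3.GJ.IsHc (dch N χ) := Pool.Agent.H471R3.GJ.dchS N χ hN hχ
  have hconv := fun s => Pool.Agent.H471R3.GJ.PMel.mellinConv (dch N χ) hH
    (Pool.Agent.H471R3.GJ.fcS _ hH) s
  have hL := Pool.Agent.H471R3.GJ.dchL Pool.Agent.H471R3.GJ.dchS
    (fun H h => Pool.Agent.H471R3.GJ.dirC H h)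
    (fun H h => Pool.Agent.H471R3.GJ.melC H h (Pool.Agent.H471R3.GJ.fcS H h))
    (fun H h => Pool.Agent.H471R3.GJ.fcS H h) N χ hN hχ
  obtain ⟨C, hC⟩ := mellin_bdd _ hconv (|K| + 1)
  have hN0 : (N : ℂ) ≠ 0 := by exact_mod_cast (by omega : N ≠ 0)
  refine ⟨C, fun s hs => ?_⟩
  have hs1 := (abs_le.1 hs).1
  have hs2 := (abs_le.1 hs).2
  have hK := le_abs_self K
  have hK0 : 0 ≤ K := (abs_nonneg _).trans hs
  by_cases hE : χ.Even
  · have h1 := hL (s / 2)
    rw [if_pos hE, show 2 * (s / 2) = s by ring] at h1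
    have h2 := hC (s / 2) (by
      have : (s / 2).re = s.re / 2 := by
        rw [show (2 : ℂ) = ((2 : ℝ) : ℂ) by norm_num, Complex.div_ofReal_re]
      rw [this, abs_le]
      constructor <;> linarith)
    rw [h1] at h2
    exact h2
  · have h1 := hL ((s + 1) / 2)
    rw [if_neg hE, show 2 * ((s + 1) / 2) - 1 = s by ring] at h1
    have h2 := hC ((s + 1) / 2) (by
      have : ((s + 1) / 2).re = (s.re + 1) / 2 := by
        rw [show (2 : ℂ) = ((2 : ℝ) : ℂ) by norm_num, Complex.div_ofReal_re]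
        simp
      rw [this, abs_le]
      constructor <;> linarith)
    have h3 : (N : ℂ) ^ ((s + 1) / 2) = (N : ℂ) ^ ((1 : ℂ) / 2) * (N : ℂ) ^ (s / 2) := by
      rw [← Complex.cpow_add _ _ hN0]
      congr 1
      ring
    rw [h1, h3, mul_assoc, norm_mul, norm_Npow hN] at h2
    have h4 : (1 : ℝ) ≤ (N : ℝ) ^ ((1 : ℂ) / 2).re := by
      apply Real.one_le_rpow
      · exact_mod_cast hN.le
      · norm_num
    unfold lam
    nlinarith [norm_nonneg ((N : ℂ) ^ (s / 2) * DirichletCharacter.completedLFunction χ s)]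

/-! ### Conjugation and the functional equation -/

theorem aa_re_nonneg' : 0 ≤ (H370.DL.aa χ).re := by
  unfold H370.DL.aa
  split_ifs <;> simp

theorem completed_eq (hN : 1 < N) {s : ℂ} (hs : 0 < s.re) :
    DirichletCharacter.completedLFunction χ s =
      Gammaℝ (s + H370.DL.aa χ) * DirichletCharacter.LFunction χ s := by
  rw [DirichletCharacter.LFunction_eq_completed_div_gammaFactor χ s (Or.inr (by omega)),
    H370.DL.gammaFactor_eq]
  have h : Gammaℝ (s + H370.DL.aa χ) ≠ 0 := by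
    apply Gammaℝ_ne_zero_of_re_pos
    have := aa_re_nonneg' (χ := χ)
    rw [add_re]
    linarith
  field_simp

theorem gammaR_conj (s : ℂ) : Gammaℝ (conj s) = conj (Gammaℝ s) := by
  rw [Gammaℝ_def, Gammaℝ_def, map_mul, ← Complex.Gamma_conj]
  have h1 : (Real.pi : ℂ).arg ≠ Real.pi := by
    rw [Complex.arg_ofReal_of_nonneg Real.pi_pos.le]
    exact Real.pi_ne_zero.symm
  have e2 : conj ((Real.pi : ℂ) ^ (-s / 2)) = (Real.pi : ℂ) ^ (-(conj s) / 2) := by
    have := Complex.conj_cpow (Real.pi : ℂ) (-s / 2) h1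
    have e3 := Complex.cpow_conj (Real.pi : ℂ) (-s / 2) h1
    rw [Complex.conj_ofReal] at e3
    rw [← e3]
    congr 1
    rw [map_div₀, map_neg, map_ofNat]
  rw [e2]
  congr 2
  rw [map_div₀, map_ofNat]

theorem completed_conj (hN : 1 < N) (h1 : χ ≠ 1) (s : ℂ) :
    DirichletCharacter.completedLFunction χ⁻¹ (conj s) =
      conj (DirichletCharacter.completedLFunction χ s) := by
  have h2 : χ⁻¹ ≠ 1 := inv_ne_one.2 h1
  have hd1 := DirichletCharacter.differentiable_completedLFunction h1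
  have hd2 := DirichletCharacter.differentiable_completedLFunction h2
  have hA : AnalyticOnNhd ℂ
      (fun s => conj (DirichletCharacter.completedLFunction χ⁻¹ (conj s))) univ := by
    intro z _
    have hd : Differentiable ℂ
        (fun s => conj (DirichletCharacter.completedLFunction χ⁻¹ (conj s))) := by
      intro w
      have h3 := (hd2 (conj w)).hasDerivAt.conj_conj
      rw [Complex.conj_conj] at h3
      exact h3.differentiableAt
    exact hd.analyticAt z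
  have hB : AnalyticOnNhd ℂ (DirichletCharacter.completedLFunction χ) univ :=
    fun z _ => hd1.analyticAt z
  have hev : (fun s => conj (DirichletCharacter.completedLFunction χ⁻¹ (conj s))) =ᶠ[𝓝 (2 : ℂ)]
      DirichletCharacter.completedLFunction χ := by
    have hmem : {z : ℂ | 0 < z.re} ∈ 𝓝 (2 : ℂ) :=
      (isOpen_lt continuous_const continuous_re).mem_nhds (by simp)
    filter_upwards [hmem] with z hz
    have hz' : 0 < z.re := hz
    rw [completed_eq hN (χ := χ⁻¹) (s := conj z) (by simpa using hz'), completed_eq hN hz',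
      H855R2.SF.LFunction_conj' h1, map_mul, Complex.conj_conj]
    congr 1
    have haa : H370.DL.aa χ⁻¹ = H370.DL.aa χ := by
      unfold H370.DL.aa
      by_cases h : χ.Even
      · rw [if_pos h, if_pos (H370.DL.inv_even_iff.2 h)]
      · rw [if_neg h, if_neg (fun h2 => h (H370.DL.inv_even_iff.1 h2))]
    rw [haa, ← gammaR_conj, map_add, Complex.conj_conj]
    congr 2
    unfold H370.DL.aa
    split_ifs <;> simp
  have h4 := hA.eqOn_of_preconnected_of_eventuallyEq hB isPreconnected_univ (mem_univ _) hev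
    (mem_univ s)
  have h5 := congrArg conj h4
  simp only [Complex.conj_conj] at h5
  exact h5

theorem natpow_conj (s : ℂ) : conj ((N : ℂ) ^ (conj s)) = (N : ℂ) ^ s := by
  have h1 : ((N : ℕ) : ℂ).arg ≠ Real.pi := by
    rw [Complex.natCast_arg]
    exact Real.pi_ne_zero.symm
  have e3 := Complex.cpow_conj (N : ℂ) s h1
  rw [Complex.conj_natCast] at e3
  rw [e3, Complex.conj_conj]

theorem fe (hN : 1 < N) (hχ : χ.IsPrimitive) (s : ℂ) :
    lam χ (1 - s) = DirichletCharacter.rootNumber χ * conj (lam χ (conj s)) := by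
  have h1 : χ ≠ 1 := H855R2.SF.ne_one_of_prim hN hχ
  have hN0 : (N : ℂ) ≠ 0 := by exact_mod_cast (by omega : N ≠ 0)
  unfold lam
  rw [hχ.completedLFunction_one_sub s, map_mul, ← completed_conj hN h1, Complex.conj_conj]
  have e1 : conj ((N : ℂ) ^ (conj s / 2)) = (N : ℂ) ^ (s / 2) := by
    rw [← natpow_conj (s / 2)]
    congr 3
    rw [map_div₀, map_ofNat]
  rw [e1]
  have e2 : (N : ℂ) ^ (s / 2) = (N : ℂ) ^ ((1 - s) / 2) * (N : ℂ) ^ (s - 1 / 2) := by
    rw [← Complex.cpow_add _ _ hN0]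
    congr 1
    ring
  rw [e2]
  ring

theorem sqrtpow (hN : 1 < N) (s : ℂ) : ((Real.sqrt N : ℝ) : ℂ) ^ s = (N : ℂ) ^ (s / 2) := by
  have hN0 : (0 : ℝ) < N := by exact_mod_cast (by omega : 0 < N)
  have h0 : ((Real.sqrt N : ℝ) : ℂ) ≠ 0 := by
    exact_mod_cast (Real.sqrt_pos.2 hN0).ne'
  have h1 : (N : ℂ) ≠ 0 := by exact_mod_cast (by omega : N ≠ 0)
  have h2 : ((N : ℕ) : ℂ) = ((N : ℝ) : ℂ) := by simp
  rw [Complex.cpow_def_of_ne_zero h0, Complex.cpow_def_of_ne_zero h1, h2,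
    ← Complex.ofReal_log (Real.sqrt_nonneg _), ← Complex.ofReal_log hN0.le, Real.log_sqrt hN0.le]
  congr 1
  push_cast
  ring

theorem norm_chi_prime {p : ℕ} (hp : p.Prime) (h : N < p) : ‖χ (p : ZMod N)‖ = 1 := by
  have hcop : Nat.Coprime p N := by
    rw [hp.coprime_iff_not_dvd]
    intro h1
    have := Nat.le_of_dvd (Nat.pos_of_ne_zero (NeZero.ne N)) h1
    omega
  have := DirichletCharacter.unit_norm_eq_one χ (ZMod.unitOfCoprime p hcop)
  rw [ZMod.coe_unitOfCoprime] at this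
  exact this

theorem prim (χ : DirichletCharacter ℂ N) (α β : ℝ) (hα : 0 < α) (hαβ : α < β) :
    ∃ c T0 : ℝ, 0 < c ∧ 2 ≤ T0 ∧ ∀ T : ℝ, T0 ≤ T →
      c ≤ ∑ p ∈ PP α β T, ‖χ ((p : ℕ) : ZMod N)‖ ^ 2 / (p : ℝ) := by
  obtain ⟨c, T0, hc, hT0, h⟩ := Pool.Agent.W64.BH.mer α β hα hαβ
  refine ⟨c, max T0 (Real.exp (Real.log N / α)), hc, hT0.trans (le_max_left _ _), fun T hT => ?_⟩
  have h1 := h T ((le_max_left _ _).trans hT)
  refine h1.trans (le_of_eq (Finset.sum_congr rfl fun p hp => ?_))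
  unfold PP at hp
  rw [Finset.mem_filter] at hp
  obtain ⟨-, hpp, hp1, -⟩ := hp
  have hT1 : Real.exp (Real.log N / α) ≤ T := (le_max_right _ _).trans hT
  have hTpos : 0 < T := (Real.exp_pos _).trans_le hT1
  have h2 : Real.log N / α ≤ Real.log T := (Real.le_log_iff_exp_le hTpos).2 hT1
  have h3 : Real.log N ≤ α * Real.log T := by
    rw [div_le_iff₀ hα] at h2
    linarith
  have hN0 : (0 : ℝ) < N := by exact_mod_cast Nat.pos_of_ne_zero (NeZero.ne N)
  have hp0 : (0 : ℝ) < p := by exact_mod_cast hpp.pos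
  have h4 : (N : ℝ) < p := (Real.log_lt_log_iff hN0 hp0).1 (by linarith)
  rw [norm_chi_prime hpp (by exact_mod_cast h4), one_pow]

theorem shrt (χ : DirichletCharacter ℂ N) : ∃ C : ℝ, 0 < C ∧ ∀ x h : ℝ, 2 ≤ x →
    x / Real.log x ^ 3 ≤ h → h ≤ x →
    ∑ n ∈ Finset.Ioc ⌊x⌋₊ ⌊x + h⌋₊, ‖χ ((n : ℕ) : ZMod N)‖ ^ 2 ≤ C * h := by
  refine ⟨30, by norm_num, fun x h hx h1 h2 => ?_⟩
  have hx0 : 0 < x := by linarith
  have hlog : 0 < Real.log x := Real.log_pos (by linarith)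
  have h3 : Real.log x ≤ 3 * x ^ (1 / 3 : ℝ) := by
    have := Real.log_le_rpow_div hx0.le (by norm_num : (0 : ℝ) < 1 / 3)
    linarith
  have h4 : Real.log x ^ 3 ≤ 27 * x := by
    have h5 : (3 * x ^ (1 / 3 : ℝ)) ^ 3 = 27 * x := by
      rw [mul_pow, ← Real.rpow_natCast (x ^ (1 / 3 : ℝ)) 3, ← Real.rpow_mul hx0.le]
      norm_num
    rw [← h5]
    exact pow_le_pow_left₀ hlog.le h3 3
  have h5 : 1 / 27 ≤ h := by
    refine le_trans ?_ h1
    rw [div_le_div_iff₀ (by norm_num) (by positivity)]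
    linarith
  have h6 : ∑ n ∈ Finset.Ioc ⌊x⌋₊ ⌊x + h⌋₊, ‖χ ((n : ℕ) : ZMod N)‖ ^ 2 ≤
      ∑ n ∈ Finset.Ioc ⌊x⌋₊ ⌊x + h⌋₊, (1 : ℝ) := by
    refine Finset.sum_le_sum fun n _ => ?_
    have := DirichletCharacter.norm_le_one χ ((n : ℕ) : ZMod N)
    have h0 := norm_nonneg (χ ((n : ℕ) : ZMod N))
    nlinarith
  refine h6.trans ?_
  rw [Finset.sum_const, Nat.card_Ioc, nsmul_eq_mul, mul_one]
  have h7 : (⌊x + h⌋₊ : ℝ) ≤ x + h := Nat.floor_le (by linarith)
  have h8 : x < (⌊x⌋₊ : ℝ) + 1 := Nat.lt_floor_add_one x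
  have h9 : ((⌊x + h⌋₊ - ⌊x⌋₊ : ℕ) : ℝ) ≤ h + 1 := by
    have hle : ⌊x⌋₊ ≤ ⌊x + h⌋₊ := Nat.floor_mono (by linarith)
    rw [Nat.cast_sub hle]
    linarith
  linarith

open Classical in
theorem dir {N : ℕ} [NeZero N] (χ : DirichletCharacter ℂ N) (hN : 1 < N) (hχ : χ.IsPrimitive) :
    ∃ D : Dat, Ok D ∧ D.d = 1 ∧ (∀ n, D.a n = χ n) ∧
      (∀ s, D.Lam s = (N : ℂ) ^ (s / 2) * DirichletCharacter.completedLFunction χ s) := by
  have h1 : χ ≠ 1 := H855R2.SF.ne_one_of_prim hN hχ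
  have hN0 : (0 : ℝ) < N := by exact_mod_cast (by omega : 0 < N)
  have hNc : (N : ℂ) ≠ 0 := by exact_mod_cast (by omega : N ≠ 0)
  refine ⟨⟨1, fun _ => if χ.Even then 0 else 1, Real.sqrt N, fun n => χ n, lam χ,
    DirichletCharacter.rootNumber χ⟩, ?_, rfl, fun _ => rfl, fun _ => rfl⟩
  refine ⟨le_rfl, fun j => ?_, Real.sqrt_pos.2 hN0, H429.GP.norm_rootNumber hχ, ?_, ?_, ?_, ?_, ?_,
    ?_, fe hN hχ, shrt χ, prim χ⟩
  · dsimp only
    split_ifs <;> norm_num
  · simp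
  · intro p n _ _ _
    push_cast
    rw [map_mul]
  · refine ⟨0, le_rfl, fun n _ => ?_⟩
    rw [Real.rpow_zero]
    exact DirichletCharacter.norm_le_one χ _
  · have hd1 := DirichletCharacter.differentiable_completedLFunction h1
    show Differentiable ℂ (lam χ)
    unfold lam
    refine Differentiable.mul ?_ hd1
    intro s
    exact (differentiableAt_id.div_const 2).const_cpow (Or.inl hNc)
  · exact fun K => strip hN hχ K
  · refine ⟨2, fun s hs => ?_⟩
    show lam χ s = ((Real.sqrt N : ℝ) : ℂ) ^ s *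
      (∏ j : Fin 1, Gammaℝ (s + (((if χ.Even then 0 else 1 : ℝ)) : ℂ))) * LSeries (fun n => χ n) s
    unfold lam
    rw [sqrtpow hN, completed_eq hN (by linarith), DirichletCharacter.LFunction_eq_LSeries χ
      (by linarith), mul_assoc]
    congr 2
    rw [Fin.prod_univ_one]
    congr 2
    unfold H370.DL.aa
    split_ifs <;> simp

end

end Pool.Agent.W686.BG.Dir
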